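import Mathlib

namespace Pool.Agent.Results.MP_f54cc4_ag.PptThreeEighths


/-- An `A`-linear map `φ : M → N` is pure if `φ ⊗ id_P` is injective for every `A`-module `P`. -/
def IsPure {A : Type} [CommRing A] {M N : Type} [AddCommGroup M] [Module A M] [AddCommGroup N]
    [Module A N] (φ : M →ₗ[A] N) : Prop :=
  ∀ (P : Type) [AddCommGroup P] [Module A P], Function.Injective (φ.rTensor P)

/-- For an `A`-algebra `B`: the `A`-linear map `A → B`, `1 ↦ g`, is pure. -/
def PureAt (A : Type) [CommRing A] {B : Type} [CommRing B] [Algebra A B] (g : B) : Prop :=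
  IsPure (LinearMap.toSpanSingleton A B g)

/-- `g ∈ B` is a value of the rational power `f ^ α` of `f ∈ A`: for some representation
`α = n / m` with `m > 0` one has `g ^ m = f ^ n`. -/
def IsRatPow {A : Type} [CommRing A] {B : Type} [CommRing B] [Algebra A B] (f : A) (α : ℚ)
    (g : B) : Prop :=
  ∃ n m : ℕ, 0 < m ∧ α = (n : ℚ) / m ∧ g ^ m = algebraMap A B f ^ n

/-- The supremum of all rational `α ≥ 0` such that, for a value `f ^ α ∈ B` of the rational power,
the `A`-linear map `A → B`, `1 ↦ f ^ α`, is pure. -/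
noncomputable def purityThreshold (A : Type) [CommRing A] (B : Type) [CommRing B] [Algebra A B]
    (f : A) : ℝ :=
  sSup {α : ℝ | ∃ (q : ℚ) (g : B), α = q ∧ IsRatPow f q g ∧ PureAt A g}

/-- Abstract computations in a domain `A` (to be applied to the absolute integral closure). -/
structure Nice (A : Type*) [CommRing A] [IsDomain A] (x : A) : Prop where
  two_ne : (2 : A) ≠ 0
  x_ne : x ≠ 0
  root : ∀ (n : ℕ) (a : A), 0 < n → ∃ b : A, b ^ n = a
  powdvd : ∀ (n : ℕ) (d u : A), 0 < n → d ^ n ∣ u ^ n → d ∣ u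
  quad : ∀ (d u a c : A), d ≠ 0 → u ^ 2 + a * d * u = d ^ 2 * c → d ∣ u
  reg : ∀ (i j : ℕ) (c d : A), 2 ^ i * c = x ^ j * d → x ^ j ∣ c
  proper : ∃ I : Ideal A, I.IsPrime ∧ (2 : A) ∈ I ∧ x ∈ I

section abstractpart

variable {A : Type*} [CommRing A] [IsDomain A] {x : A}

/-- membership in the ideal `(a, b)` -/
def In (a b u : A) : Prop := ∃ m n : A, u = a * m + b * n

namespace Nice

/-- the squaring lemma -/
lemma sq_lemma (H : Nice A x) {σ u : A} (hσ : σ ^ 2 = 2) (h : In 2 (x ^ 2) (u ^ 2)) :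
    In σ x u := by
  obtain ⟨a, b, hab⟩ := h
  obtain ⟨β, hβ⟩ := H.root 2 b (by norm_num)
  have hσ0 : σ ≠ 0 := by
    rintro rfl
    exact H.two_ne (by rw [← hσ]; ring)
  have hd : σ ∣ (u - x * β) := by
    refine H.quad σ (u - x * β) (σ * x * β) a hσ0 ?_
    have : (u - x * β) ^ 2 + σ * x * β * σ * (u - x * β) - σ ^ 2 * a = 0 := by
      have e1 : (u - x * β) ^ 2 + σ * x * β * σ * (u - x * β) - σ ^ 2 * a
        = u ^ 2 - 2 * u * x * β + x ^ 2 * β ^ 2 + σ ^ 2 * (x * β * u) - σ ^ 2 * x ^ 2 * β ^ 2 - σ ^ 2 * a := by ring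
      rw [e1, hσ, hβ, hab]; ring
    linear_combination this
  obtain ⟨m, hm⟩ := hd
  exact ⟨m, β, by linear_combination hm⟩

/-- the basic elements attached to a fourth root `z` of `x ^ 4 + 16`. -/
lemma basic (H : Nice A x) {z : A} (hz : z ^ 4 = x ^ 4 + 16) :
    ∃ σ ι w r ρ t : A, σ ^ 2 = 2 ∧ ι ^ 2 = -1 ∧ z = x + σ * w ∧ w ^ 2 + σ * x * w = r ∧
      r ^ 2 + x ^ 2 * r = 4 ∧ ρ ^ 2 = r ∧ r = ι * x * ρ + 2 * t ∧ t * (t + ι * x * ρ) = 1 := by
  obtain ⟨σ, hσ⟩ := H.root 2 2 (by norm_num)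
  obtain ⟨ι, hι⟩ := H.root 2 (-1) (by norm_num)
  have h2 := H.two_ne
  have h4 : (4 : A) ≠ 0 := by
    have : (4 : A) = 2 ^ 2 := by norm_num
    rw [this]; exact pow_ne_zero _ h2
  have hσ0 : σ ≠ 0 := by
    rintro rfl
    exact h2 (by rw [← hσ]; ring)
  obtain ⟨r, hr⟩ : (2 : A) ∣ z ^ 2 - x ^ 2 :=
    H.quad 2 (z ^ 2 - x ^ 2) (x ^ 2) 4 h2 (by linear_combination hz)
  have hr2 : r ^ 2 + x ^ 2 * r = 4 := by
    apply mul_left_cancel₀ h4
    linear_combination hz - (z ^ 2 + x ^ 2 + 2 * r) * hr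
  obtain ⟨w, hw⟩ : σ ∣ z - x :=
    H.quad σ (z - x) (σ * x) r hσ0 (by
      linear_combination hr + (x * (z - x) - r) * hσ)
  have hz' : z = x + σ * w := by linear_combination hw
  have hwr : w ^ 2 + σ * x * w = r := by
    apply mul_left_cancel₀ h2
    have : 2 * (w ^ 2 + σ * x * w) - 2 * r = 0 := by
      have e : z ^ 2 - x ^ 2 - 2 * r = 0 := by linear_combination hr
      rw [hz'] at e
      have e2 : (x + σ * w) ^ 2 - x ^ 2 - 2 * r = 2 * x * σ * w + σ ^ 2 * w ^ 2 - 2 * r := by ring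
      rw [e2, hσ] at e
      linear_combination e
    linear_combination this
  obtain ⟨ρ, hρ⟩ := H.root 2 r (by norm_num)
  obtain ⟨t, ht⟩ : (2 : A) ∣ r - ι * x * ρ :=
    H.quad 2 (r - ι * x * ρ) (ι * x * ρ) 1 h2 (by
      linear_combination hr2 - x ^ 2 * ρ ^ 2 * hι + x ^ 2 * hρ)
  refine ⟨σ, ι, w, r, ρ, t, hσ, hι, hz', hwr, hr2, hρ, by linear_combination ht, ?_⟩
  apply mul_left_cancel₀ h4
  have e : r = ι * x * ρ + 2 * t := by linear_combination ht
  have : (2 * t) * (2 * t + 2 * ι * x * ρ) = 4 := by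
    have e3 : 2 * t = r - ι * x * ρ := by linear_combination -ht
    rw [e3]
    linear_combination hr2 - x ^ 2 * ρ ^ 2 * hι + x ^ 2 * hρ
  linear_combination this

/-- Upper bound: `z ^ (3/2) ∈ (2, x)`. -/
lemma upper (H : Nice A x) {y : A} (hy : y ^ 8 = x ^ 4 + 16) : In 2 x (y ^ 3) := by
  have hz : (y ^ 2) ^ 4 = x ^ 4 + 16 := by rw [← hy]; ring
  obtain ⟨σ, ι, w, r, ρ, t, hσ, hι, hzw, hwr, hr, hρ, hrt, ht⟩ := H.basic hz
  have h1 : In 2 (x ^ 2) ((ρ * w) ^ 2) := by
    refine ⟨2 - σ * x * t * w, - r - σ * ι * ρ * w, ?_⟩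
    have e : (ρ * w) ^ 2 = ρ ^ 2 * (w ^ 2) := by ring
    rw [e, hρ]
    have hw2 : w ^ 2 = r - σ * x * w := by linear_combination hwr
    rw [hw2]
    linear_combination hr - σ * x * w * hrt
  obtain ⟨a, b, hab⟩ := H.sq_lemma hσ h1
  have h2 : In 2 (x ^ 2) ((w * y) ^ 2) := by
    have e : (w * y) ^ 2 = (r - σ * x * w) * (x + σ * w) := by
      have hw2 : w ^ 2 = r - σ * x * w := by linear_combination hwr
      rw [mul_pow, hw2, hzw]
    -- = r x + σ r w - σ x² w - 2 x w²
    -- r x = ι x² ρ + 2 t x ; σ r w = σ ι x (ρ w) + 2 σ t w = σ ι x (σ a + x b) + 2 σ t w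
    refine ⟨t * x + ι * x * a + σ * t * w - x * w ^ 2, ι * ρ + σ * ι * b - σ * w, ?_⟩
    rw [e]
    linear_combination (x + σ * w) * hrt + σ * ι * x * hab + (ι * x * a - x * w ^ 2) * hσ
  obtain ⟨c, d, hcd⟩ := H.sq_lemma hσ h2
  -- y^3 = z y = x y + σ w y
  refine ⟨c, y + σ * d, ?_⟩
  have : y ^ 3 = (y ^ 2) * y := by ring
  rw [this, hzw]
  linear_combination σ * hcd + c * hσ

/-- colon property for a root `κ` of `2` and a root `ξ` of `x`. -/
lemma reg' (H : Nice A x) {κ ξ c d : A} {m j : ℕ} (hm : 0 < m) (hκ : κ ^ m = 2)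
    (hξ : ∃ l, ξ ^ m = x ^ l) (h : ξ ^ j * c = κ * d) : κ ∣ c := by
  obtain ⟨l, hl⟩ := hξ
  refine H.powdvd m κ c hm ?_
  have h1 : 2 ^ 1 * d ^ m = x ^ (l * j) * c ^ m := by
    have := congrArg (· ^ m) h
    simp only [mul_pow] at this
    rw [pow_mul, ← hl, pow_one, ← hκ, ← pow_mul, ← this, ← pow_mul, mul_comm m j]
  obtain ⟨e, he⟩ := H.reg 1 (l * j) _ _ h1
  refine ⟨e, ?_⟩
  rw [hκ]
  apply mul_left_cancel₀ (pow_ne_zero (l * j) H.x_ne)
  rw [← h1, he]; ring

omit [IsDomain A] in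
lemma pow_two_pow_sub (u v : A) (k : ℕ) :
    ∃ c, (u - v) ^ (2 ^ k) = u ^ (2 ^ k) + v ^ (2 ^ k) + 2 * c := by
  induction k with
  | zero => exact ⟨-v, by simp; ring⟩
  | succ k ih =>
    obtain ⟨c, hc⟩ := ih
    refine ⟨u ^ (2 ^ k) * v ^ (2 ^ k) + 2 * c * (u ^ (2 ^ k) + v ^ (2 ^ k)) + 2 * c ^ 2, ?_⟩
    rw [pow_succ, pow_mul, hc]
    ring

/-- Lower bound: `f ^ (3/8 - 1/(8N)) ∉ (2, x)` for `N = 2 ^ e`. -/
lemma lower (H : Nice A x) {θ : A} {e : ℕ} (hθ : θ ^ (16 * 2 ^ e) = x ^ 4 + 16) :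
    ¬ In 2 x (θ ^ (6 * 2 ^ e - 2)) := by
  rintro ⟨m, n, hmn⟩
  have hN : 1 ≤ 2 ^ e := Nat.one_le_two_pow
  have hz : (θ ^ (4 * 2 ^ e)) ^ 4 = x ^ 4 + 16 := by
    rw [← hθ, ← pow_mul]; congr 1; ring
  obtain ⟨σ, ι, w, r, ρ, t, hσ, hι, hzw, hwr, hr, hρ, hrt, ht⟩ := H.basic hz
  obtain ⟨φ, hφ⟩ : ∃ φ, φ = θ ^ (2 * 2 ^ e - 2) := ⟨_, rfl⟩
  obtain ⟨F, hF⟩ : ∃ F, F = θ ^ (4 * 2 ^ e - 4) := ⟨_, rfl⟩
  have hFφ : F = φ ^ 2 := by
    rw [hF, hφ, ← pow_mul]; congr 1; omega
  have hg : θ ^ (6 * 2 ^ e - 2) = (x + σ * w) * φ := by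
    rw [← hzw, hφ, ← pow_add]; congr 1; omega
  have hx0 := H.x_ne
  have h2 := H.two_ne
  -- step 1
  obtain ⟨n', hn'⟩ : x ∣ w * φ - σ * m := by
    have := H.reg 1 1 (w * φ - σ * m) (σ * (n - φ)) (by
      linear_combination σ * hmn - σ * hg - (w * φ) * hσ)
    simpa using this
  have h1 : w * φ = σ * m + x * n' := by linear_combination hn'
  -- step 2
  obtain ⟨P, hP⟩ : ∃ P, P = m ^ 2 + σ * x * m * n' + x * φ * m := ⟨_, rfl⟩
  obtain ⟨B, hB⟩ : ∃ B, B = n' ^ 2 + σ * φ * n' := ⟨_, rfl⟩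
  have h2' : r * F = 2 * P + x ^ 2 * B := by
    have e1 : r * F = (w * φ) ^ 2 + σ * x * φ * (w * φ) := by
      rw [hFφ, ← hwr]; ring
    rw [e1, h1, hP, hB]
    linear_combination (m ^ 2 + x * φ * m) * hσ
  -- step 3
  obtain ⟨E, hE⟩ : x ∣ P - t * F := by
    have := H.reg 1 1 (P - t * F) (ι * ρ * F - x * B) (by
      linear_combination F * hrt - h2')
    simpa using this
  have h3 : ι * ρ * F - x * B = 2 * E := by
    apply mul_left_cancel₀ hx0
    linear_combination h2' - F * hrt + 2 * hE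
  obtain ⟨a, ha⟩ : ∃ a, a = - ι * E := ⟨_, rfl⟩
  obtain ⟨b, hb⟩ : ∃ b, b = - ι * B := ⟨_, rfl⟩
  have h4 : ρ * F = 2 * a + x * b := by
    rw [ha, hb]
    linear_combination -ι * h3 - (- ρ * F) * hι
  -- step 4
  obtain ⟨c, hc⟩ : x ^ 2 ∣ t * F ^ 2 + ι * x * a * F - 2 * a ^ 2 - 2 * x * a * b := by
    refine H.reg 1 2 _ (b ^ 2 - ι * b * F) ?_
    linear_combination (ρ * F + 2 * a + x * b - ι * x * F) * h4 - F ^ 2 * hρ - F ^ 2 * hrt
  have h5 : F * (t * F + ι * x * a) = 2 * (a ^ 2 + x * a * b) + x ^ 2 * c := by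
    linear_combination hc
  -- step 5
  obtain ⟨ξ, hξ⟩ := H.root (4 * 2 ^ e) x (by positivity)
  obtain ⟨κ, hκ⟩ := H.root (4 * 2 ^ e) σ (by positivity)
  have hκ2 : κ ^ (8 * 2 ^ e) = 2 := by
    have : κ ^ (8 * 2 ^ e) = (κ ^ (4 * 2 ^ e)) ^ 2 := by rw [← pow_mul]; congr 1; ring
    rw [this, hκ, hσ]
  have hξ2 : ξ ^ (8 * 2 ^ e) = x ^ 2 := by
    have : ξ ^ (8 * 2 ^ e) = (ξ ^ (4 * 2 ^ e)) ^ 2 := by rw [← pow_mul]; congr 1; ring
    rw [this, hξ]
  have h2κ : κ ∣ 2 := by
    rw [← hκ2]; exact dvd_pow_self _ (by positivity)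
  have hθξ : κ ∣ θ - ξ := by
    refine H.powdvd (4 * 2 ^ e) κ _ (by positivity) ?_
    obtain ⟨c', hc'⟩ := pow_two_pow_sub θ ξ (e + 2)
    have e1 : 4 * 2 ^ e = 2 ^ (e + 2) := by ring
    rw [hκ, e1, hc', ← e1, hξ, hzw, ← hσ]
    exact ⟨w + σ * x + σ * c', by linear_combination (-x) * hσ⟩
  -- step 6
  have hFξ : κ ∣ F - ξ ^ (4 * 2 ^ e - 4) := by
    rw [hF]; exact hθξ.trans (sub_dvd_pow_sub_pow θ ξ _)
  obtain ⟨u, hu⟩ := hFξ
  obtain ⟨v, hv⟩ := h2κ
  obtain ⟨G, hG⟩ : ∃ G, G = ξ ^ (4 * 2 ^ e - 4) := ⟨_, rfl⟩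
  have hxG : x = ξ ^ 4 * G := by
    rw [← hξ, hG, ← pow_add]; congr 1; omega
  have h6 : κ ∣ t + ι * ξ ^ 4 * a - ξ ^ 8 * c := by
    refine H.reg' (m := 8 * 2 ^ e) (j := 2 * (4 * 2 ^ e - 4)) (by positivity) hκ2 ⟨2, hξ2⟩
      (d := v * (a ^ 2 + x * a * b) - u * (t * (F + G) + ι * x * a)) ?_
    have hF' : F = G + κ * u := by rw [hG]; linear_combination hu
    have hpow : ξ ^ (2 * (4 * 2 ^ e - 4)) = G ^ 2 := by rw [hG, ← pow_mul]; congr 1; ring
    rw [hpow]
    have h5' := h5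
    rw [hv] at h5'
    have hx2 : x ^ 2 * c = ξ ^ 8 * G ^ 2 * c := by rw [hxG]; ring
    have hx3 : G ^ 2 * (ι * ξ ^ 4 * a) = G * ι * x * a := by rw [hxG]; ring
    have : G ^ 2 * (t + ι * ξ ^ 4 * a - ξ ^ 8 * c) = G ^ 2 * t + G * ι * x * a - x ^ 2 * c := by
      rw [hx2, ← hx3]; ring
    rw [this]
    linear_combination h5' - (t * (F + G) + ι * x * a) * hF'
  -- step 7
  obtain ⟨I, hI, hI2, hIx⟩ := H.proper
  have hκI : κ ∈ I := hI.mem_of_pow_mem (8 * 2 ^ e) (by rw [hκ2]; exact hI2)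
  have hξI : ξ ∈ I := hI.mem_of_pow_mem (4 * 2 ^ e) (by rw [hξ]; exact hIx)
  have htI : t ∈ I := by
    obtain ⟨s, hs⟩ := h6
    have : t = κ * s - ξ * (ι * ξ ^ 3 * a) + ξ * (ξ ^ 7 * c) := by linear_combination hs
    rw [this]
    exact I.add_mem (I.sub_mem (I.mul_mem_right _ hκI) (I.mul_mem_right _ hξI))
      (I.mul_mem_right _ hξI)
  exact hI.ne_top ((Ideal.eq_top_iff_one I).mpr (ht ▸ I.mul_mem_right _ htI))

end Nice

end abstractpart




/-- The ring `R = ℤ_p⟦x⟧`. -/
noncomputable abbrev R (p : ℕ) [Fact p.Prime] : Type := PowerSeries ℤ_[p]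

/-- The algebraic closure of the fraction field of `R`. -/
noncomputable abbrev Kbar (p : ℕ) [Fact p.Prime] : Type := AlgebraicClosure (FractionRing (R p))

/-- `R⁺`: the integral closure of `R` in an algebraic closure of its fraction field. -/
noncomputable abbrev RPlus (p : ℕ) [Fact p.Prime] : Subalgebra (R p) (Kbar p) := integralClosure (R p) (Kbar p)

section inst
variable (p : ℕ) [Fact p.Prime]

lemma algMap_inj : Function.Injective (algebraMap (R p) (Kbar p)) := by
  rw [IsScalarTower.algebraMap_eq (R p) (FractionRing (R p)) (Kbar p)]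
  exact (algebraMap (FractionRing (R p)) (Kbar p)).injective.comp
    (IsFractionRing.injective (R p) (FractionRing (R p)))

lemma isIntegral_of_both {v : Kbar p} {P Q : R p} (hP : P ≠ 0) (hQ : Q ≠ 0)
    (hPQ : ∀ a b : R p, ∀ n : ℕ, a * P ^ n = b * Q ^ n → Q ^ n ∣ a)
    (h1 : IsIntegral (R p) (algebraMap (R p) (Kbar p) P * v))
    (h2 : IsIntegral (R p) (algebraMap (R p) (Kbar p) Q * v)) : IsIntegral (R p) v := by
  let F := FractionRing (R p)
  have hv : IsIntegral F v := Algebra.IsIntegral.isIntegral v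
  have key : ∀ (P : R p), P ≠ 0 → IsIntegral (R p) (algebraMap (R p) (Kbar p) P * v) →
      ∀ k, ∃ c : R p, (minpoly F v).coeff k * (algebraMap (R p) F P) ^ ((minpoly F v).natDegree - k)
        = algebraMap (R p) F c := by
    intro P hP h k
    have hP' : algebraMap (R p) F P ≠ 0 := by
      simpa using hP
    have e := IsIntegrallyClosed.minpoly_smul (R := F) hP' hv
    have e2 : (algebraMap (R p) F P) • v = algebraMap (R p) (Kbar p) P * v := by
      rw [Algebra.smul_def, ← IsScalarTower.algebraMap_apply]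
    rw [e2] at e
    have e3 := minpoly.isIntegrallyClosed_eq_field_fractions' F h
    refine ⟨(minpoly (R p) (algebraMap (R p) (Kbar p) P * v)).coeff k, ?_⟩
    rw [← Polynomial.coeff_scaleRoots, ← e, e3, Polynomial.coeff_map]
  have hcoeff : ∀ k, (minpoly F v).coeff k ∈ (algebraMap (R p) F).range := by
    intro k
    obtain ⟨b, hb⟩ := key P hP h1 k
    obtain ⟨c, hc⟩ := key Q hQ h2 k
    set n := (minpoly F v).natDegree - k
    have e : c * P ^ n = b * Q ^ n := by
      apply IsFractionRing.injective (R p) F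
      rw [map_mul, map_mul, map_pow, map_pow, ← hb, ← hc]
      ring
    obtain ⟨d, hd⟩ := hPQ _ _ _ e
    refine ⟨d, ?_⟩
    have hQ' : (algebraMap (R p) F Q) ^ n ≠ 0 := pow_ne_zero _ (by simpa using hQ)
    apply mul_right_cancel₀ hQ'
    rw [hc, hd, map_mul, map_pow]; ring
  have hl : (minpoly F v) ∈ Polynomial.lifts (algebraMap (R p) F) :=
    (Polynomial.lifts_iff_coeff_lifts _).mpr (fun k => by simpa using hcoeff k)
  obtain ⟨q, hq, -, hqm⟩ := Polynomial.lifts_and_natDegree_eq_and_monic hl (minpoly.monic hv)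
  refine ⟨q, hqm, ?_⟩
  have := minpoly.aeval F v
  rw [← hq, Polynomial.aeval_map_algebraMap] at this
  rwa [← Polynomial.aeval_def]


open IsLocalRing Pointwise

lemma X_regular {r : R p} (hr : ¬ PowerSeries.X ∣ r) {u v : Kbar p}
    (hu : IsIntegral (R p) u) (hv : IsIntegral (R p) v)
    (h : algebraMap (R p) (Kbar p) r * u = algebraMap (R p) (Kbar p) PowerSeries.X * v) :
    IsIntegral (R p) (u / algebraMap (R p) (Kbar p) PowerSeries.X) := by
  have hx0 : (algebraMap (R p) (Kbar p) PowerSeries.X) ≠ 0 := by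
    rw [Ne, map_eq_zero_iff _ (algMap_inj p)]
    exact PowerSeries.X_ne_zero
  have hr0 : r ≠ 0 := by
    rintro rfl
    exact hr (dvd_zero _)
  refine isIntegral_of_both p (P := r) (Q := PowerSeries.X) hr0 PowerSeries.X_ne_zero ?_ ?_ ?_
  · intro a b n hab
    have hp : Prime (PowerSeries.X : R p) := PowerSeries.X_prime
    refine hp.pow_dvd_of_dvd_mul_left n (a := r ^ n) ?_ ⟨b, by linear_combination hab⟩
    intro h'
    exact hr (hp.dvd_of_dvd_pow h')
  · rw [mul_div_assoc', h]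
    convert hv using 1
    field_simp
  · convert hu using 1
    field_simp

variable (L : IntermediateField (FractionRing (R p)) (Kbar p))

lemma charZero_R : CharZero (R p) :=
  charZero_of_injective_algebraMap (R := ℤ_[p]) (A := R p) (by
    intro a b h
    have := congrArg PowerSeries.constantCoeff h
    simpa using this)

lemma charZero_F : CharZero (FractionRing (R p)) := by
  have := charZero_R p
  exact charZero_of_injective_algebraMap (IsFractionRing.injective (R p) (FractionRing (R p)))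

lemma S_finite [FiniteDimensional (FractionRing (R p)) L] :
    Module.Finite (R p) (integralClosure (R p) L) := by
  have := charZero_F p
  exact IsIntegralClosure.finite (R p) (FractionRing (R p)) L (integralClosure (R p) L)

lemma alg_L (r : R p) : ((algebraMap (R p) L r : L) : Kbar p) = algebraMap (R p) (Kbar p) r := rfl

lemma tower_L : IsScalarTower (R p) L (Kbar p) :=
  IsScalarTower.of_algebraMap_eq (fun _ => rfl)

lemma S_free [FiniteDimensional (FractionRing (R p)) L] :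
    Module.Free (R p) (integralClosure (R p) L) := by
  have htower := tower_L p L
  have hfin := S_finite p L
  have : Module.FinitePresentation (R p) (integralClosure (R p) L) :=
    Module.finitePresentation_of_finite _ _
  have hX : (PowerSeries.X : R p) ∈ (⊥ : Ideal (R p)).jacobson := by
    rw [IsLocalRing.jacobson_eq_maximalIdeal _ bot_ne_top, IsLocalRing.mem_maximalIdeal,
      mem_nonunits_iff, PowerSeries.isUnit_iff_constantCoeff]
    simp
  have hx0 : (algebraMap (R p) (Kbar p) PowerSeries.X) ≠ 0 := by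
    rw [Ne, map_eq_zero_iff _ (algMap_inj p)]
    exact PowerSeries.X_ne_zero
  have hreg : IsSMulRegular (integralClosure (R p) L) (PowerSeries.X : R p) := by
    intro u v huv
    have h1 : ((u : L) : Kbar p) * algebraMap (R p) (Kbar p) PowerSeries.X
        = ((v : L) : Kbar p) * algebraMap (R p) (Kbar p) PowerSeries.X := by
      have := congrArg (fun s : integralClosure (R p) L => ((s : L) : Kbar p)) huv
      simp only [Algebra.smul_def] at this
      rw [mul_comm, mul_comm ((v : L) : Kbar p)]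
      exact this
    have h2 := mul_right_cancel₀ hx0 h1
    ext
    exact h2
  rw [← Module.free_quotSMulTop_iff_free (R p) (integralClosure (R p) L) hX hreg]
  have hprime : Prime (PowerSeries.X : R p) := PowerSeries.X_prime
  have hPI : (Ideal.span {(PowerSeries.X : R p)}).IsPrime :=
    (Ideal.span_singleton_prime PowerSeries.X_ne_zero).mpr hprime
  have hdom : IsDomain (R p ⧸ Ideal.span {(PowerSeries.X : R p)}) := inferInstance
  have hPIR : IsPrincipalIdealRing (R p ⧸ Ideal.span {(PowerSeries.X : R p)}) := by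
    refine IsPrincipalIdealRing.of_surjective
      ((Ideal.Quotient.mk (Ideal.span {(PowerSeries.X : R p)})).comp (PowerSeries.C (R := ℤ_[p]))) ?_
    intro q
    obtain ⟨r, rfl⟩ := Ideal.Quotient.mk_surjective q
    refine ⟨PowerSeries.constantCoeff r, ?_⟩
    rw [RingHom.comp_apply, Ideal.Quotient.eq, Ideal.mem_span_singleton, PowerSeries.X_dvd_iff]
    simp
  have hfin2 : Module.Finite (R p ⧸ Ideal.span {(PowerSeries.X : R p)})
      (QuotSMulTop (PowerSeries.X : R p) (integralClosure (R p) L)) :=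
    Module.Finite.of_restrictScalars_finite (R p) _ _
  have htf : Module.IsTorsionFree (R p ⧸ Ideal.span {(PowerSeries.X : R p)})
      (QuotSMulTop (PowerSeries.X : R p) (integralClosure (R p) L)) := by
    refine Module.IsTorsionFree.of_smul_eq_zero ?_
    intro c m hcm
    obtain ⟨r, rfl⟩ := Ideal.Quotient.mk_surjective c
    obtain ⟨s, rfl⟩ := Submodule.mkQ_surjective _ m
    by_cases hr : (PowerSeries.X : R p) ∣ r
    · left
      rwa [Ideal.Quotient.eq_zero_iff_mem, Ideal.mem_span_singleton]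
    · right
      have h1 : (r • s) ∈ (PowerSeries.X : R p) • (⊤ : Submodule (R p) (integralClosure (R p) L)) := by
        rw [← Submodule.Quotient.mk_eq_zero]
        exact hcm
      obtain ⟨s', -, hs'⟩ := (Submodule.mem_smul_pointwise_iff_exists _ _ _).mp h1
      have h2 : algebraMap (R p) (Kbar p) r * ((s : L) : Kbar p)
          = algebraMap (R p) (Kbar p) PowerSeries.X * ((s' : L) : Kbar p) := by
        have := congrArg (fun s : integralClosure (R p) L => ((s : L) : Kbar p)) hs'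
        simp only [Algebra.smul_def] at this
        exact this.symm
      have h3 : ∀ s : integralClosure (R p) L, IsIntegral (R p) ((s : L) : Kbar p) := by
        intro s
        have := s.2
        exact IsIntegral.map (IsScalarTower.toAlgHom (R p) L (Kbar p)) this
      have h4 := X_regular p hr (h3 s) (h3 s') h2
      have h5 : ((s : L) : Kbar p) / algebraMap (R p) (Kbar p) PowerSeries.X
          = (((s : L) / algebraMap (R p) L PowerSeries.X : L) : Kbar p) := by
        simp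
        rfl
      rw [h5] at h4
      have h6 : IsIntegral (R p) ((s : L) / algebraMap (R p) L PowerSeries.X : L) := by
        have := isIntegral_algHom_iff (IsScalarTower.toAlgHom (R p) L (Kbar p))
          (fun a b h => Subtype.ext h) (x := ((s : L) / algebraMap (R p) L PowerSeries.X : L))
        exact this.mp h4
      rw [Submodule.mkQ_apply, Submodule.Quotient.mk_eq_zero, Submodule.mem_smul_pointwise_iff_exists]
      refine ⟨⟨_, h6⟩, trivial, ?_⟩
      have hx0' : algebraMap (R p) L PowerSeries.X ≠ 0 := by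
        intro h
        apply hx0
        have := congrArg (fun s : L => (s : Kbar p)) h
        exact this
      ext
      simp only [Algebra.smul_def]
      change (((algebraMap (R p) L PowerSeries.X) * ((s : L) / algebraMap (R p) L PowerSeries.X) : L) : Kbar p) = ((s : L) : Kbar p)
      rw [mul_div_cancel₀ _ hx0']
  exact Module.free_of_finite_type_torsion_free'

/-- the map from the integral closure in `L` to `R⁺`. -/
noncomputable def jL : integralClosure (R p) L →ₗ[R p] RPlus p where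
  toFun s := ⟨((s : L) : Kbar p), by
    have htower := tower_L p L
    exact IsIntegral.map (IsScalarTower.toAlgHom (R p) L (Kbar p)) s.2⟩
  map_add' a b := rfl
  map_smul' r a := by
    ext
    simp only [Algebra.smul_def]
    rfl

lemma mem_max {c : R p} (hc : c ∈ maximalIdeal (R p)) :
    ∃ a b : R p, c = (p : R p) * a + PowerSeries.X * b := by
  have h1 : PowerSeries.constantCoeff c ∈ maximalIdeal ℤ_[p] := by
    rw [IsLocalRing.mem_maximalIdeal, mem_nonunits_iff, ← PowerSeries.isUnit_iff_constantCoeff]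
    exact hc
  rw [PadicInt.maximalIdeal_eq_span_p, Ideal.mem_span_singleton] at h1
  obtain ⟨a, ha⟩ := h1
  have h2 : (PowerSeries.X : R p) ∣ c - (p : R p) * PowerSeries.C a := by
    rw [PowerSeries.X_dvd_iff, map_sub, map_mul, ha]
    simp
  obtain ⟨b, hb⟩ := h2
  exact ⟨PowerSeries.C a, b, by linear_combination hb⟩

open TensorProduct in
lemma pure_of_notMem (g : RPlus p)
    (hg : ¬ ∃ a b : RPlus p, g = (p : RPlus p) * a + algebraMap (R p) (RPlus p) PowerSeries.X * b) :
    IsPure (LinearMap.toSpanSingleton (R p) (RPlus p) g) := by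
  intro P _ _
  rw [injective_iff_map_eq_zero]
  intro t ht
  obtain ⟨m, rfl⟩ : ∃ m : P, t = (1 : R p) ⊗ₜ[R p] m :=
    ⟨TensorProduct.lid (R p) P t, by
      rw [← TensorProduct.lid_symm_apply, LinearEquiv.symm_apply_apply]⟩
  rw [LinearMap.rTensor_tmul, LinearMap.toSpanSingleton_apply, one_smul] at ht
  set P0 : Submodule (R p) (RPlus p) := Submodule.span (R p) {g} with hP0
  have hgP : g ∈ P0 := Submodule.mem_span_singleton_self g
  obtain ⟨Q, hPQ, ⟨S, hS⟩, hQ⟩ := TensorProduct.eq_zero_of_fg_of_subtype_eq_zero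
    (P := P0) (N := P) (t := (⟨g, hgP⟩ : P0) ⊗ₜ[R p] m) (Submodule.fg_span_singleton g)
    (by rw [LinearMap.rTensor_tmul]; exact ht)
  classical
  let L : IntermediateField (FractionRing (R p)) (Kbar p) :=
    IntermediateField.adjoin _ ((S.image (fun s : RPlus p => (s : Kbar p)) : Finset (Kbar p)) : Set (Kbar p))
  have hLfin : FiniteDimensional (FractionRing (R p)) L :=
    IntermediateField.finiteDimensional_adjoin (fun x _ => Algebra.IsIntegral.isIntegral x)
  have htower := tower_L p L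
  have hQL : ∀ q : RPlus p, q ∈ Q → (q : Kbar p) ∈ L := by
    intro q hq
    rw [← hS] at hq
    induction hq using Submodule.span_induction with
    | mem x hx =>
      apply IntermediateField.subset_adjoin
      simp only [Finset.coe_image]
      exact ⟨x, hx, rfl⟩
    | zero => exact L.zero_mem
    | add x y _ _ hx hy => exact L.add_mem hx hy
    | smul a x _ hx =>
      have : ((a • x : RPlus p) : Kbar p) = ((algebraMap (R p) L a : L) : Kbar p) * (x : Kbar p) := by
        rw [Algebra.smul_def]; rfl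
      rw [this]
      exact L.mul_mem (SetLike.coe_mem _) hx
  have hint : ∀ q : Q, IsIntegral (R p) (⟨((q : RPlus p) : Kbar p), hQL q q.2⟩ : L) := by
    intro q
    have := isIntegral_algHom_iff (IsScalarTower.toAlgHom (R p) L (Kbar p))
      (fun a b h => Subtype.ext h) (x := (⟨((q : RPlus p) : Kbar p), hQL q q.2⟩ : L))
    exact this.mp (q : RPlus p).2
  let ι : Q →ₗ[R p] integralClosure (R p) L :=
    { toFun := fun q => ⟨⟨((q : RPlus p) : Kbar p), hQL q q.2⟩, hint q⟩
      map_add' := fun a b => rfl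
      map_smul' := fun r a => by
        ext
        rw [RingHom.id_apply, Algebra.smul_def r]
        have : (((r • a : Q) : RPlus p) : Kbar p)
            = algebraMap (R p) (Kbar p) r * ((a : RPlus p) : Kbar p) := by
          rw [Submodule.coe_smul, Algebra.smul_def]; rfl
        exact this }
  have hfree := S_free p L
  have hfinS := S_finite p L
  let bs := Module.Free.chooseBasis (R p) (integralClosure (R p) L)
  obtain ⟨i, hi⟩ : ∃ i, bs.repr (ι ⟨g, hPQ hgP⟩) i ∉ maximalIdeal (R p) := by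
    by_contra hcon
    push Not at hcon
    apply hg
    have hsum : g = ∑ i, (bs.repr (ι ⟨g, hPQ hgP⟩) i) • jL p L (bs i) := by
      have h1 : jL p L (ι ⟨g, hPQ hgP⟩) = g := rfl
      conv_lhs => rw [← h1, ← bs.sum_repr (ι ⟨g, hPQ hgP⟩)]
      rw [map_sum]
      simp only [map_smul]
    choose a b hab using fun i => mem_max p (hcon i)
    refine ⟨∑ i, (a i) • jL p L (bs i), ∑ i, (b i) • jL p L (bs i), ?_⟩
    conv_lhs => rw [hsum]
    rw [Finset.mul_sum, Finset.mul_sum, ← Finset.sum_add_distrib]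
    refine Finset.sum_congr rfl (fun i _ => ?_)
    rw [hab i]
    simp only [Algebra.smul_def, map_add, map_mul, map_natCast]
    ring
  have hunit : IsUnit (bs.repr (ι ⟨g, hPQ hgP⟩) i) := by
    by_contra h
    exact hi ((IsLocalRing.mem_maximalIdeal _).mpr h)
  have h1 := congrArg (LinearMap.rTensor P ((bs.coord i).comp ι)) hQ
  rw [LinearMap.rTensor_tmul, LinearMap.rTensor_tmul, LinearMap.map_zero] at h1
  have h2 := congrArg (TensorProduct.lid (R p) P) h1
  rw [TensorProduct.lid_tmul, LinearEquiv.map_zero] at h2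
  have h3 : (bs.repr (ι ⟨g, hPQ hgP⟩) i) • m = 0 := h2
  have h4 : m = 0 := by
    obtain ⟨u, hu⟩ := hunit
    rw [← hu] at h3
    have := congrArg (fun y => (u⁻¹ : (R p)ˣ) • y) h3
    simpa [Units.smul_def, smul_smul] using this
  rw [h4, TensorProduct.tmul_zero]

end inst


section two

/-- the image of the variable in `R⁺` -/
noncomputable abbrev xx : RPlus 2 := algebraMap (R 2) (RPlus 2) PowerSeries.X

lemma RPlus_inj : Function.Injective (algebraMap (R 2) (RPlus 2)) := by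
  have := algMap_inj 2
  rw [IsScalarTower.algebraMap_eq (R 2) (RPlus 2) (Kbar 2), RingHom.coe_comp] at this
  exact Function.Injective.of_comp this

lemma cc2 : PowerSeries.constantCoeff (2 : R 2) = (2 : ℤ_[2]) := map_ofNat _ 2

lemma two_ne_R : (2 : R 2) ≠ 0 := by
  intro h
  have := congrArg PowerSeries.constantCoeff h
  rw [cc2, map_zero] at this
  exact two_ne_zero this

lemma algTwo : algebraMap (R 2) (RPlus 2) 2 = 2 := map_ofNat _ 2

lemma algTwo' : algebraMap (R 2) (Kbar 2) 2 = 2 := map_ofNat _ 2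

lemma divInt {d u v : Kbar 2} (hd : d ≠ 0) (h : u = d * v) : v = u / d := by
  rw [h]; field_simp

lemma niceRPlus : Nice (RPlus 2) xx where
  two_ne := by
    rw [← algTwo, Ne, map_eq_zero_iff _ RPlus_inj]
    exact two_ne_R
  x_ne := by
    rw [Ne, map_eq_zero_iff _ RPlus_inj]
    exact PowerSeries.X_ne_zero
  root := by
    intro n a hn
    obtain ⟨b, hb⟩ := IsAlgClosed.exists_pow_nat_eq (a : Kbar 2) hn
    refine ⟨⟨b, ?_⟩, ?_⟩
    · exact IsIntegral.of_pow hn (by rw [hb]; exact a.2)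
    · ext; simpa using hb
  powdvd := by
    intro n d u hn h
    obtain ⟨c, hc⟩ := h
    by_cases hd : d = 0
    · subst hd
      rw [zero_pow hn.ne', zero_mul] at hc
      rw [pow_eq_zero_iff hn.ne'] at hc
      rw [hc]
    · have hd' : (d : Kbar 2) ≠ 0 := by simpa using hd
      have hc' : (u : Kbar 2) ^ n = (d : Kbar 2) ^ n * (c : Kbar 2) := by exact_mod_cast congrArg Subtype.val hc
      have hv : ((u : Kbar 2) / d) ^ n = c := by
        rw [div_pow, hc']; field_simp
      have : IsIntegral (R 2) ((u : Kbar 2) / d) := IsIntegral.of_pow hn (by rw [hv]; exact c.2)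
      refine ⟨⟨_, this⟩, ?_⟩
      ext
      simp only [MulMemClass.coe_mul]
      field_simp
  quad := by
    intro d u a c hd h
    have hd' : (d : Kbar 2) ≠ 0 := by simpa using hd
    have h' : (u : Kbar 2) ^ 2 + a * d * u = d ^ 2 * c := by exact_mod_cast congrArg Subtype.val h
    have hv : ((u : Kbar 2) / d) ^ 2 + a * (u / d) - c = 0 := by
      field_simp
      linear_combination h'
    have h1 : IsIntegral (RPlus 2) ((u : Kbar 2) / d) := by
      refine ⟨Polynomial.X ^ 2 + (Polynomial.C a * Polynomial.X - Polynomial.C c), ?_, ?_⟩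
      · refine Polynomial.monic_X_pow_add ?_
        compute_degree!
      · rw [← hv]
        simp
        ring
    have : IsIntegral (R 2) ((u : Kbar 2) / d) := isIntegral_trans _ h1
    refine ⟨⟨_, this⟩, ?_⟩
    ext
    simp only [MulMemClass.coe_mul]
    field_simp
  reg := by
    intro i j c d h
    have hx0 : (algebraMap (R 2) (Kbar 2) PowerSeries.X) ≠ 0 := by
      rw [Ne, map_eq_zero_iff _ (algMap_inj 2)]
      exact PowerSeries.X_ne_zero
    have h20 : (2 : R 2) ≠ 0 := two_ne_R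
    have h20' : (algebraMap (R 2) (Kbar 2) 2) ≠ 0 := by
      rwa [Ne, map_eq_zero_iff _ (algMap_inj 2)]
    have h' : (algebraMap (R 2) (Kbar 2) 2) ^ i * (c : Kbar 2)
        = (algebraMap (R 2) (Kbar 2) PowerSeries.X) ^ j * d := by
      have := congrArg Subtype.val h
      have e2 : ((2 : RPlus 2) : Kbar 2) = 2 := map_ofNat (algebraMap (RPlus 2) (Kbar 2)) 2
      rw [algTwo', ← e2]
      simpa using this
    set v : Kbar 2 := (c : Kbar 2) / (algebraMap (R 2) (Kbar 2) PowerSeries.X) ^ j with hv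
    have hv1 : (algebraMap (R 2) (Kbar 2) PowerSeries.X) ^ j * v = c := by
      rw [hv]; field_simp
    have hv2 : (algebraMap (R 2) (Kbar 2) 2) ^ i * v = d := by
      rw [hv, mul_div_assoc', h']; field_simp
    have hint : IsIntegral (R 2) v := by
      refine isIntegral_of_both 2 (P := 2 ^ i) (Q := PowerSeries.X ^ j) (pow_ne_zero _ h20)
        (pow_ne_zero _ PowerSeries.X_ne_zero) ?_ ?_ ?_
      · intro a b n hab
        rw [← pow_mul] at hab ⊢
        rw [← pow_mul] at hab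
        have hp : Prime (PowerSeries.X : R 2) := PowerSeries.X_prime
        refine hp.pow_dvd_of_dvd_mul_left (j * n) (a := 2 ^ (i * n)) ?_ ⟨b, by linear_combination hab⟩
        intro h
        rw [PowerSeries.X_dvd_iff, map_pow, cc2] at h
        exact pow_ne_zero _ two_ne_zero h
      · rw [map_pow, hv2]; exact d.2
      · rw [map_pow, hv1]; exact c.2
    refine ⟨⟨v, hint⟩, ?_⟩
    ext
    simpa using hv1.symm
  proper := by
    obtain ⟨Q, hQ, hQ2⟩ := Ideal.exists_ideal_over_maximal_of_isIntegral (S := RPlus 2)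
      (IsLocalRing.maximalIdeal (R 2)) (by
        rw [(RingHom.injective_iff_ker_eq_bot _).mp RPlus_inj]; exact bot_le)
    refine ⟨Q, hQ.isPrime, ?_, ?_⟩
    · have : (2 : R 2) ∈ IsLocalRing.maximalIdeal (R 2) := by
        rw [IsLocalRing.mem_maximalIdeal, mem_nonunits_iff, PowerSeries.isUnit_iff_constantCoeff]
        rw [cc2]
        have := PadicInt.prime_p (p := 2)
        exact_mod_cast this.not_isUnit
      rw [← hQ2, Ideal.mem_comap, algTwo] at this
      exact this
    · have : (PowerSeries.X : R 2) ∈ IsLocalRing.maximalIdeal (R 2) := by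
        rw [IsLocalRing.mem_maximalIdeal, mem_nonunits_iff, PowerSeries.isUnit_iff_constantCoeff]
        simp
      rwa [← hQ2, Ideal.mem_comap] at this

end two


section fpart


open MvPowerSeries Filter

/-- `ν(p ^ e)`: the largest `r` with `f ^ r ∉ (x ^ (p ^ e), y ^ (p ^ e))`, for `f ∈ 𝔽_p⟦x, y⟧`
(`x = X 0`, `y = X 1`). -/
noncomputable def nu (p : ℕ) (f : MvPowerSeries (Fin 2) (ZMod p)) (e : ℕ) : ℕ :=
  sSup {r : ℕ | f ^ r ∉ Ideal.span {(X 0 : MvPowerSeries (Fin 2) (ZMod p)) ^ p ^ e, X 1 ^ p ^ e}}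

/-- the F-pure threshold of `f ∈ 𝔽_p⟦x, y⟧`. -/
noncomputable def fpt (p : ℕ) (f : MvPowerSeries (Fin 2) (ZMod p)) : ℝ :=
  limUnder atTop (fun e : ℕ => (nu p f e : ℝ) / (p : ℝ) ^ e)

lemma mem_iff (e r : ℕ) :
    ((X 1 ^ 4 + X 0 ^ 4 : MvPowerSeries (Fin 2) (ZMod 2)) ^ r ∉
      Ideal.span {(X 0 : MvPowerSeries (Fin 2) (ZMod 2)) ^ 2 ^ e, X 1 ^ 2 ^ e}) ↔ 4 * r < 2 ^ e := by
  have hp : Fact (Nat.Prime 2) := ⟨Nat.prime_two⟩
  have hchar : CharP (MvPowerSeries (Fin 2) (ZMod 2)) 2 := by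
    refine charP_of_injective_algebraMap (R := ZMod 2) (A := MvPowerSeries (Fin 2) (ZMod 2)) ?_ 2
    intro a b h
    have := congrArg (MvPowerSeries.constantCoeff (σ := Fin 2) (R := ZMod 2)) h
    simpa [MvPowerSeries.algebraMap_apply] using this
  have h4 : (X 1 ^ 4 + X 0 ^ 4 : MvPowerSeries (Fin 2) (ZMod 2)) = (X 0 + X 1) ^ 4 := by
    have := add_pow_char_pow (p := 2) (n := 2) (X 0 : MvPowerSeries (Fin 2) (ZMod 2)) (X 1)
    norm_num at this
    rw [this, add_comm]
  rw [h4, ← pow_mul]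
  constructor
  · intro h
    by_contra hcon
    push Not at hcon
    apply h
    obtain ⟨k, hk⟩ := Nat.exists_eq_add_of_le hcon
    rw [hk, pow_add, add_pow_char_pow]
    refine Ideal.mul_mem_right _ _ (Ideal.add_mem _ (Ideal.subset_span (by simp))
      (Ideal.subset_span (by simp)))
  · intro h hmem
    rw [Ideal.mem_span_pair] at hmem
    obtain ⟨a, b, hab⟩ := hmem
    have h1 := congrArg (coeff (Finsupp.single 0 (4 * r))) hab
    have e1 : coeff (Finsupp.single 0 (4 * r)) (a * (X 0 : MvPowerSeries (Fin 2) (ZMod 2)) ^ 2 ^ e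
        + b * X 1 ^ 2 ^ e) = 0 := by
      rw [map_add, X_pow_eq, X_pow_eq, coeff_mul_monomial, coeff_mul_monomial, if_neg, if_neg, add_zero]
      · intro hle
        have := hle 1
        simp at this
      · intro hle
        have := hle 0
        simp at this
        omega
    have e2 : coeff (Finsupp.single 0 (4 * r)) ((X 0 + X 1 : MvPowerSeries (Fin 2) (ZMod 2)) ^ (4 * r))
        = 1 := by
      rw [add_pow, map_sum, Finset.sum_eq_single (4 * r)]
      · simp [X_pow_eq]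
      · intro k hk hk2
        have hk3 : k < 4 * r := by
          have := Finset.mem_range.mp hk
          omega
        have : (X 0 ^ k * X 1 ^ (4 * r - k) * ((4 * r).choose k : MvPowerSeries (Fin 2) (ZMod 2)))
            = (X 0 ^ k * ((4 * r).choose k : MvPowerSeries (Fin 2) (ZMod 2))) * X 1 ^ (4 * r - k) := by
          ring
        rw [this, X_pow_eq (1 : Fin 2), coeff_mul_monomial, if_neg]
        intro hle
        have := hle 1
        simp at this
        omega
      · intro h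
        simp at h
    rw [e1, e2] at h1
    exact zero_ne_one h1

lemma nu_spec (e : ℕ) :
    4 * nu 2 (X 1 ^ 4 + X 0 ^ 4) e < 2 ^ e ∧ 2 ^ e ≤ 4 * (nu 2 (X 1 ^ 4 + X 0 ^ 4) e + 1) := by
  have hset : {r : ℕ | (X 1 ^ 4 + X 0 ^ 4 : MvPowerSeries (Fin 2) (ZMod 2)) ^ r ∉
      Ideal.span {(X 0 : MvPowerSeries (Fin 2) (ZMod 2)) ^ 2 ^ e, X 1 ^ 2 ^ e}}
      = {r | 4 * r < 2 ^ e} := by
    ext r
    exact mem_iff e r
  have hne : ({r | 4 * r < 2 ^ e} : Set ℕ).Nonempty := ⟨0, by simp⟩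
  have hbdd : BddAbove ({r | 4 * r < 2 ^ e} : Set ℕ) := ⟨2 ^ e, fun r hr => by
    simp only [Set.mem_ofPred_eq] at hr; omega⟩
  unfold nu
  rw [hset]
  refine ⟨Nat.sSup_mem hne hbdd, ?_⟩
  by_contra hcon
  push Not at hcon
  have := le_csSup hbdd (show sSup {r | 4 * r < 2 ^ e} + 1 ∈ {r | 4 * r < 2 ^ e} from hcon)
  omega

lemma fpt_eq : fpt 2 (X 1 ^ 4 + X 0 ^ 4) = 1 / 4 := by
  unfold fpt
  apply Tendsto.limUnder_eq
  have h1 : Tendsto (fun e : ℕ => (1 : ℝ) / 4 - (1 / 2) ^ e) atTop (nhds (1 / 4)) := by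
    have := tendsto_pow_atTop_nhds_zero_of_lt_one (r := (1 / 2 : ℝ)) (by norm_num) (by norm_num)
    simpa using this.const_sub (1 / 4 : ℝ)
  refine tendsto_of_tendsto_of_tendsto_of_le_of_le h1 tendsto_const_nhds ?_ ?_
  · intro e
    have h := (nu_spec e).2
    have h' : (2 : ℝ) ^ e ≤ 4 * (nu 2 (X 1 ^ 4 + X 0 ^ 4) e + 1) := by exact_mod_cast h
    have hp : (0 : ℝ) < 2 ^ e := by positivity
    simp only [Nat.cast_ofNat]
    rw [one_div_pow, le_div_iff₀ hp, sub_mul, one_div_mul_cancel hp.ne']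
    linarith
  · intro e
    have h := (nu_spec e).1
    have h' : 4 * (nu 2 (X 1 ^ 4 + X 0 ^ 4) e : ℝ) < (2 : ℝ) ^ e := by exact_mod_cast h
    have hp : (0 : ℝ) < 2 ^ e := by positivity
    simp only [Nat.cast_ofNat]
    rw [div_le_iff₀ hp]
    linarith


end fpart

section main

open IsLocalRing

variable (p : ℕ) [Fact p.Prime]

/-- The plus-pure threshold of `f ∈ R = ℤ_p⟦x⟧`: the supremum of all rational `α ≥ 0` such that
the `R`-linear map `R → R⁺`, `1 ↦ f ^ α`, is pure. -/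
noncomputable def ppt (f : R p) : ℝ := purityThreshold (R p) (RPlus p) f

/-- The element `p ^ a + x ^ b` of `R = ℤ_p⟦x⟧`. -/
noncomputable def cusp (a b : ℕ) : R p := (p : R p) ^ a + PowerSeries.X ^ b

open TensorProduct in
lemma notMem_of_pure {g : RPlus p} (hg : IsPure (LinearMap.toSpanSingleton (R p) (RPlus p) g)) :
    ¬ ∃ a b : RPlus p, g = (p : RPlus p) * a + algebraMap (R p) (RPlus p) PowerSeries.X * b := by
  rintro ⟨a, b, hab⟩
  have hp : (p : R p) ∈ maximalIdeal (R p) := by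
    rw [IsLocalRing.mem_maximalIdeal, mem_nonunits_iff, PowerSeries.isUnit_iff_constantCoeff]
    have h1 : PowerSeries.constantCoeff (p : R p) = (p : ℤ_[p]) := map_natCast _ _
    rw [h1]
    exact (PadicInt.prime_p (p := p)).not_isUnit
  have hX : (PowerSeries.X : R p) ∈ maximalIdeal (R p) := by
    rw [IsLocalRing.mem_maximalIdeal, mem_nonunits_iff, PowerSeries.isUnit_iff_constantCoeff]
    simp
  have hinj := hg (R p ⧸ maximalIdeal (R p))
  have h0 : (1 : R p) ⊗ₜ[R p] (Ideal.Quotient.mk (maximalIdeal (R p)) 1) = 0 := by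
    apply hinj
    rw [LinearMap.rTensor_tmul, LinearMap.toSpanSingleton_apply, one_smul, LinearMap.map_zero, hab]
    have e1 : (p : RPlus p) * a = (p : R p) • a := by
      rw [Algebra.smul_def, map_natCast]
    have e2 : algebraMap (R p) (RPlus p) PowerSeries.X * b = (PowerSeries.X : R p) • b := by
      rw [Algebra.smul_def]
    have e3 : ∀ r : R p, r ∈ maximalIdeal (R p) →
        r • (Ideal.Quotient.mk (maximalIdeal (R p)) 1) = 0 := by
      intro r hr
      rw [Algebra.smul_def, Ideal.Quotient.algebraMap_eq, ← map_mul, mul_one]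
      exact Ideal.Quotient.eq_zero_iff_mem.mpr hr
    rw [e1, e2, TensorProduct.add_tmul, TensorProduct.smul_tmul, TensorProduct.smul_tmul,
      e3 _ hp, e3 _ hX, TensorProduct.tmul_zero, TensorProduct.tmul_zero, add_zero]
  have h1 := congrArg (TensorProduct.lid (R p) (R p ⧸ maximalIdeal (R p))) h0
  rw [TensorProduct.lid_tmul, LinearEquiv.map_zero, one_smul] at h1
  have h2 := Ideal.Quotient.eq_zero_iff_mem.mp h1
  exact (Ideal.ne_top_iff_one _).mp (maximalIdeal.isMaximal (R p)).ne_top h2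

/-- Purity of `1 ↦ g` is the condition `g ∉ (p, x) R⁺`. -/
lemma pure_iff (g : RPlus p) : IsPure (LinearMap.toSpanSingleton (R p) (RPlus p) g) ↔
    ¬ ∃ a b : RPlus p, g = (p : RPlus p) * a + algebraMap (R p) (RPlus p) PowerSeries.X * b :=
  ⟨notMem_of_pure p, pure_of_notMem p g⟩

end main

/-- The element `y ^ a + x ^ b` of `𝔽_p⟦x, y⟧` (`x = X 0`, `y = X 1`). -/
noncomputable def cusp0 (p a b : ℕ) : MvPowerSeries (Fin 2) (ZMod p) :=
  MvPowerSeries.X 1 ^ a + MvPowerSeries.X 0 ^ b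

section final

lemma alg_f : algebraMap (R 2) (RPlus 2) (cusp 2 4 4) = (xx : RPlus 2) ^ 4 + 16 := by
  unfold cusp
  rw [map_add, map_pow, map_pow, map_natCast]
  norm_num
  ring

lemma ppt_eq : ppt 2 (cusp 2 4 4) = 3 / 8 := by
  have H := niceRPlus
  set S : Set ℝ := {α : ℝ | ∃ (q : ℚ) (g : RPlus 2), α = q ∧
    IsRatPow (cusp 2 4 4) q g ∧ PureAt (R 2) g} with hS
  have hup : ∀ α ∈ S, α ≤ 3 / 8 := by
    rintro α ⟨q, g, rfl, ⟨n, m, hm, rfl, hg⟩, hpure⟩
    by_contra hcon
    push Not at hcon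
    have hm' : (0 : ℝ) < m := by exact_mod_cast hm
    have h8 : 3 * m < 8 * n := by
      push_cast at hcon
      rw [lt_div_iff₀ hm'] at hcon
      have : (3 : ℝ) * m < 8 * n := by linarith
      exact_mod_cast this
    apply (pure_iff 2 g).mp hpure
    obtain ⟨ψ, hψ⟩ := H.root (8 * m) (xx ^ 4 + 16) (by omega)
    obtain ⟨a, b, hab⟩ := H.upper (y := ψ ^ m) (by rw [← pow_mul, mul_comm m 8]; exact hψ)
    rw [alg_f] at hg
    obtain ⟨c, hc⟩ : ψ ^ (8 * n) ∣ g := by
      refine H.powdvd m _ _ hm ?_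
      rw [hg, ← hψ, ← pow_mul, ← pow_mul]
      exact dvd_of_eq (by ring)
    have hd : ψ ^ (8 * n) = (ψ ^ m) ^ 3 * ψ ^ (8 * n - 3 * m) := by
      rw [← pow_mul, ← pow_add]; congr 1; omega
    refine ⟨a * ψ ^ (8 * n - 3 * m) * c, b * ψ ^ (8 * n - 3 * m) * c, ?_⟩
    rw [hc, hd, hab]
    push_cast
    ring
  have hlow : ∀ e : ℕ, (3 : ℝ) / 8 - (1 / 8) * (1 / 2) ^ e ∈ S := by
    intro e
    have hN : 1 ≤ 2 ^ e := Nat.one_le_two_pow
    obtain ⟨θ, hθ⟩ := H.root (16 * 2 ^ e) (xx ^ 4 + 16) (by positivity)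
    refine ⟨((3 * 2 ^ e - 1 : ℕ) : ℚ) / ((8 * 2 ^ e : ℕ) : ℚ), θ ^ (6 * 2 ^ e - 2), ?_,
      ⟨3 * 2 ^ e - 1, 8 * 2 ^ e, by positivity, rfl, ?_⟩, ?_⟩
    · rw [Nat.cast_sub (by omega)]
      push_cast
      have h2 : (2 : ℝ) ^ e ≠ 0 := by positivity
      rw [one_div_pow]
      field_simp
    · rw [alg_f, ← hθ, ← pow_mul, ← pow_mul]
      congr 1
      obtain ⟨k, hk⟩ : ∃ k, 2 ^ e = k + 1 := ⟨2 ^ e - 1, by omega⟩
      rw [hk]
      have e1 : 6 * (k + 1) - 2 = 6 * k + 4 := by omega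
      have e2 : 3 * (k + 1) - 1 = 3 * k + 2 := by omega
      rw [e1, e2]
      ring
    · unfold PureAt
      rw [pure_iff]
      rintro ⟨a, b, hab⟩
      exact H.lower hθ ⟨a, b, by rw [hab]; push_cast; ring⟩
  have hne : S.Nonempty := ⟨_, hlow 0⟩
  have hbdd : BddAbove S := ⟨3 / 8, hup⟩
  apply le_antisymm
  · exact csSup_le hne hup
  · have h1 : Filter.Tendsto (fun e : ℕ => (3 : ℝ) / 8 - (1 / 8) * (1 / 2) ^ e) Filter.atTop
        (nhds (3 / 8)) := by
      have := (tendsto_pow_atTop_nhds_zero_of_lt_one (r := (1 / 2 : ℝ)) (by norm_num)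
        (by norm_num)).const_mul (1 / 8 : ℝ)
      simpa using this.const_sub (3 / 8 : ℝ)
    exact le_of_tendsto' h1 (fun e => le_csSup hbdd (hlow e))

end final

/-- For `p = 2`, `a = b = 4`: the F-pure threshold of `y ^ 4 + x ^ 4` is `1 / 4`, the plus-pure
threshold of `2 ^ 4 + x ^ 4` is `3 / 8` (and the log canonical threshold is `1 / 4 + 1 / 4`), so
the plus-pure threshold of `p ^ a + x ^ b` is not always one of the two other thresholds. -/
theorem result :
    fpt 2 (cusp0 2 4 4) = 1 / 4 ∧ ppt 2 (cusp 2 4 4) = 3 / 8 ∧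
    ¬ (∀ (p : ℕ) (_ : Fact p.Prime) (a b : ℕ), 2 ≤ a → 2 ≤ b →
      ppt p (cusp p a b) = fpt p (cusp0 p a b) ∨ ppt p (cusp p a b) = 1 / (a : ℝ) + 1 / (b : ℝ)) := by
  refine ⟨fpt_eq, ppt_eq, ?_⟩
  intro h
  rcases h 2 Nat.fact_prime_two 4 4 (by norm_num) (by norm_num) with h | h
  · have h1 : fpt 2 (cusp0 2 4 4) = 1 / 4 := fpt_eq
    rw [h1, ppt_eq] at h
    norm_num at h
  · rw [ppt_eq] at h
    norm_num at h

end Pool.Agent.Results.MP_f54cc4_ag.PptThreeEighths
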